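import Pool.Agent.N520.SV.Fin3
import Pool.Agent.N520.RO.Asm
import Pool.Agent.TH569.MK.ExpChain
import Pool.Agent.Y449.MK.Sub

set_option autoImplicit false

open Pool.Agent.W689.Mk

namespace Pool.Agent.Results.MP_f22a19_gt.ConformalTopQuotient

/-- the standard simplex of dimension `k` -/
abbrev Simplex (k : ℕ) : Type := stdSimplex ℝ (Fin (k + 1))

/-- real singular chains of degree `k` of the space `M` -/
abbrev Chain (k : ℕ) (M : Type) [TopologicalSpace M] : Type := C(Simplex k, M) →₀ ℝ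

/-- the inclusion of the face opposite to the vertex `i` -/
noncomputable def face {k : ℕ} (i : Fin (k + 2)) : C(Simplex k, Simplex (k + 1)) :=
  ⟨stdSimplex.map i.succAbove, stdSimplex.continuous_map _⟩

/-- the boundary of singular chains -/
noncomputable def bdry {M : Type} [TopologicalSpace M] (k : ℕ) : Chain (k + 1) M →ₗ[ℝ] Chain k M :=
  Finsupp.linearCombination ℝ fun σ =>
    ∑ i : Fin (k + 2), ((-1 : ℝ) ^ (i : ℕ)) • Finsupp.single (σ.comp (face i)) 1

/-- the `ℓ¹`-norm of a singular chain: the sum of the absolute values of its coefficients -/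
noncomputable def norm1 {M : Type} [TopologicalSpace M] {k : ℕ} (c : Chain k M) : ℝ :=
  ∑ σ ∈ c.support, |c σ|

/-- The `ℓ¹`-seminorm of the homology class of a cycle `z`: the infimum of the norms of the
homologous cycles. For a fundamental cycle of a closed oriented manifold this is the simplicial
volume. -/
noncomputable def seminorm1 {k : ℕ} {M : Type} [TopologicalSpace M] (z : Chain (k + 1) M) : ℝ :=
  ⨅ c : Chain (k + 2) M, norm1 (z + bdry (k + 1) c)

section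
variable {Γ E : Type} [Group Γ] [NormedAddCommGroup E] [NormedSpace ℝ E]

/-- The linear holonomy of `H` is uniformly bounded on the quotient `W / V`. -/
def BoundedOn (hol : Γ →* (E ≃ᵃ[ℝ] E)) (H : Subgroup Γ) (V W : Submodule ℝ E) : Prop :=
  ∃ C : ℝ, ∀ γ ∈ H, ∀ v ∈ W, ∃ w ∈ V, ‖(hol γ).linear v - w‖ ≤ C * ‖v‖

/-- The linear holonomy of `H` is uniformly quasi-conformal on the quotient `W / V`: there is one
constant `C`, and for all `γ` in `H` a factor `c > 0`, such that the linear part of `hol γ`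
multiplies the quotient norm of `W / V` at most by `C * c`, and its inverse at most by `C / c`. (For
example: it acts on `W / V` by similarities.) -/
def ConformalOn (hol : Γ →* (E ≃ᵃ[ℝ] E)) (H : Subgroup Γ) (V W : Submodule ℝ E) : Prop :=
  ∃ C : ℝ, ∀ γ ∈ H, ∃ c : ℝ, 0 < c ∧ ∀ v ∈ W,
    (∃ w ∈ V, ‖(hol γ).linear v - w‖ ≤ C * c * ‖v‖) ∧
      ∃ w ∈ V, ‖(hol γ⁻¹).linear v - w‖ ≤ C * c⁻¹ * ‖v‖

theorem quot_hom {H : Subgroup Γ} {hol : Γ →* (E ≃ᵃ[ℝ] E)} [FiniteDimensional ℝ E]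
    {W : Submodule ℝ E} (hinv : ∀ γ ∈ H, ∀ v ∈ W, (hol γ).linear v ∈ W)
    (hconf : ConformalOn hol H W ⊤) :
    ∃ (d : ℕ) (π : E →L[ℝ] EuclideanSpace ℝ (Fin d))
      (ρ : H → EuclideanSpace ℝ (Fin d) →L[ℝ] EuclideanSpace ℝ (Fin d)),
      Function.Surjective π ∧ (∀ v, π v = 0 → v ∈ W) ∧
      (∀ (γ : H) (v : E), π ((hol γ).linear v) = ρ γ (π v)) ∧
      ∀ ε : ℝ, 0 < ε → ∃ R : ℝ, ∀ γ, R ≤ ‖ρ γ‖ → ‖ρ γ⁻¹‖ ≤ ε := by
  obtain ⟨d, hd⟩ : ∃ d : ℕ, d = Module.finrank ℝ (E ⧸ W) := ⟨_, rfl⟩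
  have e : (E ⧸ W) ≃ₗ[ℝ] EuclideanSpace ℝ (Fin d) :=
    LinearEquiv.ofFinrankEq _ _ (by rw [finrank_euclideanSpace_fin, hd])
  let π₀ : E →ₗ[ℝ] EuclideanSpace ℝ (Fin d) := e.toLinearMap ∘ₗ W.mkQ
  have hsurj : Function.Surjective π₀ := e.surjective.comp (Submodule.mkQ_surjective W)
  have hker : ∀ v, π₀ v = 0 ↔ v ∈ W := by
    intro v
    show e (W.mkQ v) = 0 ↔ v ∈ W
    rw [LinearEquiv.map_eq_zero_iff, Submodule.mkQ_apply, Submodule.Quotient.mk_eq_zero]
  obtain ⟨s, hs⟩ := π₀.exists_rightInverse_of_surjective (LinearMap.range_eq_top.2 hsurj)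
  have hs' : ∀ q, π₀ (s q) = q := fun q => LinearMap.congr_fun hs q
  let ρ₀ : H → EuclideanSpace ℝ (Fin d) →ₗ[ℝ] EuclideanSpace ℝ (Fin d) := fun γ =>
    π₀ ∘ₗ ((hol γ).linear : E →ₗ[ℝ] E) ∘ₗ s
  have hρ₀ : ∀ (γ : H) (v : E), π₀ ((hol γ).linear v) = ρ₀ γ (π₀ v) := by
    intro γ v
    show π₀ ((hol γ).linear v) = π₀ ((hol γ).linear (s (π₀ v)))
    rw [← sub_eq_zero, ← map_sub, ← map_sub]
    refine (hker _).2 (hinv γ γ.2 _ ((hker _).1 ?_))
    rw [map_sub, hs', sub_self]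
  let π : E →L[ℝ] EuclideanSpace ℝ (Fin d) := LinearMap.toContinuousLinearMap π₀
  let S : EuclideanSpace ℝ (Fin d) →L[ℝ] E := LinearMap.toContinuousLinearMap s
  let ρ : H → EuclideanSpace ℝ (Fin d) →L[ℝ] EuclideanSpace ℝ (Fin d) := fun γ =>
    LinearMap.toContinuousLinearMap (ρ₀ γ)
  refine ⟨d, π, ρ, hsurj, fun v hv => (hker v).1 hv, hρ₀, ?_⟩
  obtain ⟨C, hC⟩ := hconf
  -- the norm of `ρ γ` from a bound modulo `W`
  have key : ∀ (γ : H) (a : ℝ), 0 ≤ a → (∀ v : E, ∃ w ∈ W, ‖(hol γ).linear v - w‖ ≤ |C| * a * ‖v‖) →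
      ‖ρ γ‖ ≤ ‖π‖ * |C| * ‖S‖ * a := by
    intro γ a ha h
    refine ContinuousLinearMap.opNorm_le_bound _ (by positivity) fun q => ?_
    obtain ⟨w, hw, hb⟩ := h (S q)
    have h1 : ρ γ q = π ((hol γ).linear (S q) - w) := by
      have h2 : π w = 0 := (hker w).2 hw
      rw [map_sub, h2, sub_zero]
      have h3 := hρ₀ γ (s q)
      rw [hs'] at h3
      exact h3.symm
    rw [h1]
    calc ‖π ((hol γ).linear (S q) - w)‖ ≤ ‖π‖ * ‖(hol γ).linear (S q) - w‖ := π.le_opNorm _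
      _ ≤ ‖π‖ * (|C| * a * ‖S q‖) := by gcongr
      _ ≤ ‖π‖ * (|C| * a * (‖S‖ * ‖q‖)) := by
        gcongr
        exact S.le_opNorm _
      _ = ‖π‖ * |C| * ‖S‖ * a * ‖q‖ := by ring
  obtain ⟨K, hK⟩ : ∃ K : ℝ, K = ‖π‖ * |C| * ‖S‖ := ⟨_, rfl⟩
  have hK0 : 0 ≤ K := by rw [hK]; positivity
  have hle : ∀ (a x : ℝ), 0 ≤ a → 0 ≤ x → C * a * x ≤ |C| * a * x := fun a x ha hx => by
    gcongr
    exact le_abs_self C
  intro ε hε
  refine ⟨K * (K / ε) + 1, fun γ hγ => ?_⟩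
  obtain ⟨c, hc, h⟩ := hC γ γ.2
  have h1 : ‖ρ γ‖ ≤ K * c := by
    rw [hK]
    refine key γ c hc.le fun v => ?_
    obtain ⟨w, hw, hb⟩ := (h v trivial).1
    exact ⟨w, hw, hb.trans (hle _ _ hc.le (norm_nonneg _))⟩
  have h2 : ‖ρ γ⁻¹‖ ≤ K * c⁻¹ := by
    rw [hK]
    refine key γ⁻¹ c⁻¹ (by positivity) fun v => ?_
    obtain ⟨w, hw, hb⟩ := (h v trivial).2
    refine ⟨w, hw, ?_⟩
    have : ((γ⁻¹ : H) : Γ) = (γ : Γ)⁻¹ := rfl
    rw [this]
    exact hb.trans (hle _ _ (by positivity) (norm_nonneg _))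
  refine h2.trans ?_
  have h3 : K * (K / ε) < K * c := by linarith
  have h4 : K / ε < c := lt_of_mul_lt_mul_left h3 hK0
  rw [div_lt_iff₀ hε] at h4
  rw [mul_inv_le_iff₀ hc]
  linarith

end

/-- Let `M = X / Γ` be a closed affine manifold with parallel volume: `X` is a connected cover with
its group `Γ` acting freely, `dev` the developing map and `hol` the holonomy (`dev` is not assumed
to be injective). Suppose that the linear holonomy of some subgroup `H` of finite index preserves a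
flag `0 = S 0 ⊆ S 1 ⊆ … ⊆ S (m + 1) = E`, is uniformly quasi-conformal on its quotients, and
uniformly bounded on the quotients `S (i + 1) / S i`, `p ≤ i < m`, where all geodesics with velocity
in `S p` are defined up to time one (this is no condition if `p = 0`; then the linear holonomy is
bounded on all quotients except for the last). Then the group `Γ` is virtually solvable, and the
`ℓ¹`-seminorm of all real homology classes of `M` of positive degree is zero; in particular the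
simplicial volume of `M` is zero. -/
theorem result (X Γ E : Type) [NormedAddCommGroup E] [NormedSpace ℝ E]
    [FiniteDimensional ℝ E] [TopologicalSpace X] [T2Space X] [SecondCountableTopology X]
    [ConnectedSpace X] [Group Γ] [MulAction Γ X] (dev : X → E) (hol : Γ →* (E ≃ᵃ[ℝ] E))
    (D : AffData X Γ E dev hol) (hfree : ∀ (γ : Γ) (x : X), γ • x = x → γ = 1)
    (H : Subgroup Γ) (hH : H.FiniteIndex) (S : ℕ → Submodule ℝ E) (m p : ℕ) (hp : p ≤ m)
    (hbot : S 0 = ⊥) (htop : S (m + 1) = ⊤) (hmono : ∀ i ≤ m, S i ≤ S (i + 1))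
    (hinv : ∀ i ≤ m, ∀ γ ∈ H, ∀ v ∈ S i, (hol γ).linear v ∈ S i)
    (hconf : ∀ i ≤ m, ConformalOn hol H (S i) (S (i + 1)))
    (hbdd : ∀ i, p ≤ i → i < m → BoundedOn hol H (S i) (S (i + 1)))
    (hgeod : ∀ (x : X), ∀ v ∈ S p, Geod dev x v) :
    (∃ A : Subgroup Γ, A.FiniteIndex ∧ Group.IsSolvable A) ∧
      ∀ (k : ℕ) (z : Chain (k + 1) (MulAction.orbitRel.Quotient Γ X)), bdry k z = 0 →
        seminorm1 z = 0 := by
  have hdev : IsHomeomorph dev := by
    have h1 := hconf m le_rfl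
    rw [htop] at h1
    obtain ⟨d, π, ρ, hs, hk, hρ, hP⟩ := quot_hom (hinv m le_rfl) h1
    refine Pool.Agent.TH569.MK.exp_chain_complete (Pool.Agent.Y449.MK.restrict D H hH)
      (fun i => S (p + i)) (m - p) (fun x v hv => hgeod x v hv) ?_ π hs ?_ ρ hρ hP
    · intro i hi
      obtain ⟨C, hC⟩ := hbdd (p + i) (by omega) (by omega)
      exact ⟨C, fun γ v hv => hC γ γ.2 v hv⟩
    · intro v hv
      show v ∈ S (p + (m - p))
      rw [Nat.add_sub_cancel' hp]
      exact hk v hv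
  refine Pool.Agent.N520.SV.solv_zero X Γ E dev hol D hfree hdev
    (Pool.Agent.N520.RO.quasi X Γ E dev hol D hdev.injective H hH S (m + 1)
      ⟨hbot, htop, fun i hi => hmono i (by omega), ?_, ?_⟩).2
  · intro i hi
    rcases Nat.lt_or_ge m i with h | h
    · have : i = m + 1 := by omega
      rw [this, htop]
      exact fun _ _ _ _ => trivial
    · exact hinv i h
  · choose! C hC using hconf
    refine ⟨∑ j ∈ Finset.range (m + 1), |C j|, fun i hi γ hγ => ?_⟩
    obtain ⟨c, hc, h⟩ := hC i (by omega) γ hγ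
    have h1 : C i ≤ ∑ j ∈ Finset.range (m + 1), |C j| :=
      (le_abs_self _).trans (Finset.single_le_sum (f := fun j => |C j|)
        (fun j _ => abs_nonneg _) (Finset.mem_range.2 hi))
    refine ⟨c, hc, fun v hv => ?_⟩
    obtain ⟨⟨w, hw, h2⟩, w', hw', h3⟩ := h v hv
    refine ⟨⟨w, hw, h2.trans ?_⟩, w', hw', h3.trans ?_⟩ <;> gcongr

end Pool.Agent.Results.MP_f22a19_gt.ConformalTopQuotient
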